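import Pool.Agent.H31.SX.TargetsS
import Pool.Agent.H69.SWL.PO

/-!
# (PO) Poisson summation with periodic coefficients (MP_52e316_nt)
-/

set_option autoImplicit false

open NumberField NumberField.InfinitePlace NumberField.Units
  NumberField.Units.dirichletUnitTheorem MeasureTheory Set Filter Complex
open scoped nonZeroDivisors ENNReal

namespace Pool.Agent.H69.SWX

open Pool.Agent.H25.HK Pool.Agent.H23.LB Pool.Agent.H23.LC
open Pool.Agent.H28.RC (Rep ft idl)
open Pool.Agent.H29.DW (dg Rl lf wv Pos Wg cpar Ci om zs rv)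
open Pool.Agent.H31.SW Pool.Agent.H31.SX

variable {K : Type} [Field K] [NumberField K]

theorem DD_mul (j : Ideal (𝓞 K)) (M : FI K) (y : InfinitePlace K → ℝ) :
    DD ((j : FI K) * M) y = DD M y / Nf K j := by
  unfold DD Nf
  rw [map_mul, FractionalIdeal.coeIdeal_absNorm]
  push_cast
  rw [div_div, mul_comm]

/-- (PO) -/
theorem pf_PO (hPG : Pool.Agent.H29.DW.V_PG) : X_PO := by
  intro K _ _ j M X c G hj hM hX hper hGc hGs hGd y ω hω
  have hd := Pool.Agent.H69.SWL.PO.decay (K := K) (G := G)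
    (s := (Module.finrank ℚ K + 1 : ℝ)) (by positivity) hGd
  obtain ⟨-, h2, h3⟩ := hPG K j M X c G hj hM hX hper hGc hGs hd y ω hω
  have hlf : ∀ x : K, ∏ v, lf (rv v) (G v) (wv v x (-y) (fun v => (starRingEnd ℂ) (ω v))) =
      ∏ v, Pool.Agent.H31.SW.FF (rv v) (G v)
        (2 * Real.pi * dg (rv v) * wv v x (-y) (fun v => (starRingEnd ℂ) (ω v))) :=
    fun x => Finset.prod_congr rfl fun v _ => Pool.Agent.H69.SWL.PO.lf_eq _ _ _
  simp only [hlf] at h2 h3
  refine ⟨h2, ?_⟩
  have h4 : ∑' x : {x : K // x ∈ M}, c x * pF G y ω x =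
      ∑' x : {x : K // x ∈ M}, c x * ∏ v, G v (wv v x.1 y ω) := rfl
  rw [h4, h3]
  have hconst : (Real.exp (-(∑ v, (v.mult : ℝ) * y v) / 2) * (cv K ((j : FI K) * M))⁻¹ : ℝ) =
      DD M y / (Nf K j * Real.sqrt (dK K)) := by
    have h5 : DD M y / (Nf K j * Real.sqrt (dK K)) =
        DD ((j : FI K) * M) y / Real.sqrt (dK K) := by
      rw [DD_mul, div_div]
    rw [h5]
    unfold DD cv dK
    rw [mul_inv]
    ring
  rw [hconst]

end Pool.Agent.H69.SWX
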