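import Pool.Agent.H31.SX.TargetsS
import Pool.Agent.H69.SWL.SD
import Pool.Agent.H69.SWX.PO
import Pool.Agent.H20.SWL.NB
import Pool.Agent.H48.RC.RX

/-!
# (SD) the bound for the sum after the first differencing step, archimedean and depth aspect
(MP_52e316_nt)
-/

set_option autoImplicit false

open NumberField NumberField.InfinitePlace NumberField.Units
  NumberField.Units.dirichletUnitTheorem MeasureTheory Set Filter Complex
open scoped nonZeroDivisors ENNReal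

namespace Pool.Agent.H69.SWX

open Pool.Agent.H25.HK Pool.Agent.H23.LB Pool.Agent.H23.LC
open Pool.Agent.H28.RC (Rep ft idl)
open Pool.Agent.H29.DW (dg Rl lf wv Pos Wg cpar Ci om zs rv norm_wv Rl_wv dg_rv card_places_le)
open Pool.Agent.H31.SW Pool.Agent.H31.SX

namespace SD

open Pool.Agent.H69.SWL.SDA Pool.Agent.H69.SWL.SD

variable {K : Type} [Field K] [NumberField K]

/-- the bound for one piece -/
theorem piece2 {n k : ℕ} {CD : ℝ} (hCD : 0 < CD) (L : FI K) (y : InfinitePlace K → ℝ)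
    (ω : InfinitePlace K → ℂ) (Φ : K → ℂ) (B : ℝ → ℝ) (hB : ∀ P, 0 ≤ P → 0 ≤ B P)
    (hG : ∀ (t : InfinitePlace K → Bool) (Λ a g : InfinitePlace K → ℂ)
      (F : InfinitePlace K → ℂ → ℂ),
      (∀ v, LDat (n + 5) (rv v) (t v) (Λ v) (a v) (g v) (F v)) →
      ‖∑' x : {x : K // x ∈ L}, Φ x * pF F y ω x‖ ≤ B (PP (fun v => Mt (t v) (Λ v))))
    (Λ a : InfinitePlace K → ℂ) (hΛ : ∀ v, Rl (rv v) (Λ v)) (ha0 : ∀ v, a v ≠ 0)
    (ha1 : ∀ v, ‖a v‖ ≤ 1 / 10000) (ha2 : ∀ v, Rl (rv v) (a v))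
    (G : InfinitePlace K → ℂ → ℂ) (F : InfinitePlace K → Option (ℤ × ℤ) → ℂ → ℂ)
    (hF : ∀ v, Pcs (n + 5) k CD (rv v) (Λ v) (a v) (G v) (F v))
    (j : InfinitePlace K → Option (ℤ × ℤ)) :
    ‖∑' x : {x : K // x ∈ L}, Φ x * pF (fun v => F v (j v)) y ω x‖ ≤
      (∏ v, cb CD ‖Λ v‖ k (dg (rv v)) (j v)) * B (PP (fun v => mt ‖Λ v‖ (j v))) := by
  have hmt : ∀ v, 0 ≤ mt ‖Λ v‖ (j v) := by
    intro v
    cases j v with
    | none => exact norm_nonneg _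
    | some g => exact zero_le_one
  have hP0 : 0 ≤ PP (fun v => mt ‖Λ v‖ (j v)) := PP_nonneg _ hmt
  by_cases h0 : ∃ v, j v = none ∧ ‖Λ v‖ < 1
  · obtain ⟨v, hv1, hv2⟩ := h0
    have h1 : ∀ x : {x : K // x ∈ L}, Φ x * pF (fun v => F v (j v)) y ω x = 0 := by
      intro x
      have h2 : pF (fun v => F v (j v)) y ω x = 0 := by
        unfold pF
        refine Finset.prod_eq_zero (Finset.mem_univ v) ?_
        show F v (j v) (wv v x y ω) = 0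
        rw [hv1, (hF v).small hv2]
        rfl
      rw [h2, mul_zero]
    simp only [h1]
    rw [tsum_zero, norm_zero]
    exact mul_nonneg (Finset.prod_nonneg fun v _ => cb_nonneg hCD.le (norm_nonneg _) _ _ _)
      (hB _ hP0)
  · have hl : ∀ v, j v = none → 1 ≤ ‖Λ v‖ := by
      intro v hv
      by_contra hcon
      exact h0 ⟨v, hv, not_le.1 hcon⟩
    obtain ⟨cv, hcv⟩ : ∃ cv : InfinitePlace K → ℝ, cv =
      fun v => cb CD ‖Λ v‖ k (dg (rv v)) (j v) := ⟨_, rfl⟩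
    have hcv' : ∀ v, cb CD ‖Λ v‖ k (dg (rv v)) (j v) = cv v := fun v => by rw [hcv]
    have hc0 : ∀ v, 0 < cv v := by
      intro v
      rw [← hcv' v]
      cases hj : j v with
      | none =>
        have h1 := hl v hj
        show 0 < if 1 ≤ ‖Λ v‖ then CD * ‖Λ v‖ ^ (-(dg (rv v) : ℝ) / 2) else 0
        rw [if_pos h1]
        have : 0 < ‖Λ v‖ := by linarith
        positivity
      | some g =>
        show 0 < CD * (1 + ‖Λ v‖ + ‖gi g‖) ^ (-(k : ℝ))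
        positivity
    obtain ⟨F', hF'⟩ : ∃ F' : InfinitePlace K → ℂ → ℂ, F' =
      fun v z => (((cv v)⁻¹ : ℝ) : ℂ) * F v (j v) z := ⟨_, rfl⟩
    have hn : ∀ v, ‖(((cv v)⁻¹ : ℝ) : ℂ)‖ = (cv v)⁻¹ := by
      intro v
      rw [Complex.norm_real, Real.norm_eq_abs, abs_of_pos (inv_pos.2 (hc0 v))]
    have hdat : ∀ v, LDat (n + 5) (rv v) ((j v).isNone) (Λ v) (a v) (gc (Λ v) (j v)) (F' v) := by
      intro v
      refine ⟨fun ht => ?_, fun ht => ?_⟩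
      · have hj : j v = none := Option.isNone_iff_eq_none.1 ht
        have h1 := hl v hj
        refine ⟨h1, hΛ v, ha0 v, ha1 v, ha2 v, ?_⟩
        obtain ⟨A, hA, hFA⟩ := (hF v).large h1
        have h2 : cv v = CD * ‖Λ v‖ ^ (-(dg (rv v) : ℝ) / 2) := by
          rw [← hcv' v, hj]
          show (if 1 ≤ ‖Λ v‖ then CD * ‖Λ v‖ ^ (-(dg (rv v) : ℝ) / 2) else 0) = _
          rw [if_pos h1]
        refine ⟨fun z => (((cv v)⁻¹ : ℝ) : ℂ) * A z, ?_, ?_⟩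
        · have h3 := hA.const_mul (((cv v)⁻¹ : ℝ) : ℂ)
          rw [hn v, ← h2, inv_mul_cancel₀ (hc0 v).ne'] at h3
          exact h3
        · funext z
          rw [hF']
          show (((cv v)⁻¹ : ℝ) : ℂ) * F v (j v) z = _
          rw [hj, hFA]
          unfold FT1
          ring
      · obtain ⟨g, hj⟩ : ∃ g, j v = some g := by
          cases hj : j v with
          | none =>
            rw [hj] at ht
            exact absurd ht (by simp)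
          | some g => exact ⟨g, rfl⟩
        have h2 : cv v = CD * (1 + ‖Λ v‖ + ‖gi g‖) ^ (-(k : ℝ)) := by
          rw [← hcv' v, hj]
          rfl
        have h3 := ((hF v).sm g).const_mul (((cv v)⁻¹ : ℝ) : ℂ)
        rw [hn v, ← h2, inv_mul_cancel₀ (hc0 v).ne'] at h3
        have h4 : F' v = fun z => (((cv v)⁻¹ : ℝ) : ℂ) * F v (some g) z := by
          funext z
          rw [hF']
          show (((cv v)⁻¹ : ℝ) : ℂ) * F v (j v) z = _
          rw [hj]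
        rw [h4, hj]
        exact h3
    have h1 := hG (fun v => (j v).isNone) Λ a (fun v => gc (Λ v) (j v)) F' hdat
    have h2 : (fun v => Mt ((j v).isNone) (Λ v)) = fun v => mt ‖Λ v‖ (j v) := by
      funext v
      cases j v with
      | none => rfl
      | some g => rfl
    rw [h2] at h1
    have h3 : ∀ x : {x : K // x ∈ L}, Φ x * pF (fun v => F v (j v)) y ω x =
        (((∏ v, cv v : ℝ)) : ℂ) * (Φ x * pF F' y ω x) := by
      intro x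
      have h4 : pF (fun v => F v (j v)) y ω x = (((∏ v, cv v : ℝ)) : ℂ) * pF F' y ω x := by
        unfold pF
        rw [Complex.ofReal_prod, ← Finset.prod_mul_distrib]
        refine Finset.prod_congr rfl fun v _ => ?_
        rw [hF']
        show F v (j v) (wv v x y ω) = _ * ((((cv v)⁻¹ : ℝ) : ℂ) * F v (j v) (wv v x y ω))
        rw [← mul_assoc, ← Complex.ofReal_mul, mul_inv_cancel₀ (hc0 v).ne', Complex.ofReal_one,
          one_mul]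
      rw [h4]
      ring
    simp only [h3, hcv']
    rw [tsum_mul_left, norm_mul, Complex.norm_real, Real.norm_eq_abs,
      abs_of_nonneg (Finset.prod_nonneg fun v _ => (hc0 v).le)]
    exact mul_le_mul_of_nonneg_left h1 (Finset.prod_nonneg fun v _ => (hc0 v).le)

theorem Nf_pos {j : Ideal (𝓞 K)} (hj : j ≠ ⊥) : 0 < Nf K j := by
  unfold Nf
  exact_mod_cast Nat.pos_of_ne_zero fun h => hj (Ideal.absNorm_eq_zero_iff.1 h)

theorem Nf_one_le {j : Ideal (𝓞 K)} (hj : j ≠ ⊥) : 1 ≤ Nf K j := by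
  unfold Nf
  exact_mod_cast Nat.pos_of_ne_zero fun h => hj (Ideal.absNorm_eq_zero_iff.1 h)

theorem Nf_mul (a b : Ideal (𝓞 K)) : Nf K (a * b) = Nf K a * Nf K b := by
  unfold Nf
  rw [map_mul]
  push_cast
  rfl

theorem Nf_le {a b : Ideal (𝓞 K)} (h : a ≤ b) (ha : a ≠ ⊥) : Nf K b ≤ Nf K a := by
  unfold Nf
  have h1 : Ideal.absNorm b ∣ Ideal.absNorm a := Ideal.absNorm_dvd_absNorm_of_le h
  have h2 : 0 < Ideal.absNorm a := Nat.pos_of_ne_zero fun h => ha (Ideal.absNorm_eq_zero_iff.1 h)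
  exact_mod_cast Nat.le_of_dvd h2 h1

/-- the final comparison of the numbers -/
theorem numbers {A N P E d r G M : ℝ} (hA : 0 < A) (hN : 0 < N) (hP : 0 ≤ P) (hd : 1 ≤ d)
    (hr : 1 ≤ r) (hG : 0 ≤ G) (hM : 0 ≤ M) (hE0 : 0 ≤ E) (hE : E ≤ d * r / A) :
    A * N ^ (-(1 / 2) : ℝ) * (G * r ^ 2 * (M * (P ^ (-(1 / 2) : ℝ) +
        E ^ (5 / 6 : ℝ) * N ^ (13 / 15 : ℝ) * P ^ (11 / 30 : ℝ) +
        E ^ (25 / 24 : ℝ) * N ^ (121 / 120 : ℝ) * P ^ (61 / 120 : ℝ)))) ≤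
      G * M * r ^ 4 * d ^ 2 * (A * (P * N) ^ (-(1 / 2) : ℝ) +
        A ^ (1 / 6 : ℝ) * (P * N) ^ (11 / 30 : ℝ) +
        A ^ (-(1 / 24) : ℝ) * (P * N) ^ (61 / 120 : ℝ)) := by
  have hdr : 1 ≤ d * r := one_le_mul_of_one_le_of_one_le hd hr
  have hp1 := dual_pow (α := 5 / 6) hA hdr hE0 hE (by norm_num) (by norm_num)
  have hp2 := dual_pow (α := 25 / 24) hA hdr hE0 hE (by norm_num) (by norm_num)
  rw [show (1 - 5 / 6 : ℝ) = 1 / 6 by norm_num] at hp1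
  rw [show (1 - 25 / 24 : ℝ) = -(1 / 24) by norm_num] at hp2
  have e1 : N ^ (-(1 / 2) : ℝ) * N ^ (13 / 15 : ℝ) = N ^ (11 / 30 : ℝ) := by
    rw [← Real.rpow_add hN]
    norm_num
  have e2 : N ^ (-(1 / 2) : ℝ) * N ^ (121 / 120 : ℝ) = N ^ (61 / 120 : ℝ) := by
    rw [← Real.rpow_add hN]
    norm_num
  have hr4 : (d * r) ^ 2 * r ^ 2 = r ^ 4 * d ^ 2 := by ring
  have hGM : 0 ≤ G * M := mul_nonneg hG hM
  have hr2 : 0 ≤ r ^ 2 := sq_nonneg r
  rw [Real.mul_rpow hP hN.le, Real.mul_rpow hP hN.le, Real.mul_rpow hP hN.le]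
  have hP1 := Real.rpow_nonneg hP (-(1 / 2) : ℝ)
  have hP2 := Real.rpow_nonneg hP (11 / 30 : ℝ)
  have hP3 := Real.rpow_nonneg hP (61 / 120 : ℝ)
  have hN1 := Real.rpow_nonneg hN.le (-(1 / 2) : ℝ)
  have hN2 := Real.rpow_nonneg hN.le (11 / 30 : ℝ)
  have hN3 := Real.rpow_nonneg hN.le (61 / 120 : ℝ)
  have q1 : r ^ 2 * (A * (P ^ (-(1 / 2) : ℝ) * N ^ (-(1 / 2) : ℝ))) ≤
      (r ^ 4 * d ^ 2) * (A * (P ^ (-(1 / 2) : ℝ) * N ^ (-(1 / 2) : ℝ))) := by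
    refine mul_le_mul_of_nonneg_right ?_ (mul_nonneg hA.le (mul_nonneg hP1 hN1))
    rw [← hr4]
    exact le_mul_of_one_le_left hr2 (one_le_pow₀ hdr)
  have q2 := mul_le_mul_of_nonneg_right hp1 (mul_nonneg hP2 hN2)
  have q3 := mul_le_mul_of_nonneg_right hp2 (mul_nonneg hP3 hN3)
  have q2' := mul_le_mul_of_nonneg_left q2 hr2
  have q3' := mul_le_mul_of_nonneg_left q3 hr2
  have key : r ^ 2 * (A * (P ^ (-(1 / 2) : ℝ) * N ^ (-(1 / 2) : ℝ)) +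
      A * E ^ (5 / 6 : ℝ) * (P ^ (11 / 30 : ℝ) * N ^ (11 / 30 : ℝ)) +
      A * E ^ (25 / 24 : ℝ) * (P ^ (61 / 120 : ℝ) * N ^ (61 / 120 : ℝ))) ≤
      r ^ 4 * d ^ 2 * (A * (P ^ (-(1 / 2) : ℝ) * N ^ (-(1 / 2) : ℝ)) +
        A ^ (1 / 6 : ℝ) * (P ^ (11 / 30 : ℝ) * N ^ (11 / 30 : ℝ)) +
        A ^ (-(1 / 24) : ℝ) * (P ^ (61 / 120 : ℝ) * N ^ (61 / 120 : ℝ))) := by
    rw [← hr4] at q1 ⊢
    nlinarith [q1, q2', q3']
  calc _ = G * M * (r ^ 2 * (A * (P ^ (-(1 / 2) : ℝ) * N ^ (-(1 / 2) : ℝ)) +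
      A * E ^ (5 / 6 : ℝ) * (P ^ (11 / 30 : ℝ) * N ^ (11 / 30 : ℝ)) +
      A * E ^ (25 / 24 : ℝ) * (P ^ (61 / 120 : ℝ) * N ^ (61 / 120 : ℝ)))) := by
        rw [← e1, ← e2]
        ring
    _ ≤ G * M * (r ^ 4 * d ^ 2 * (A * (P ^ (-(1 / 2) : ℝ) * N ^ (-(1 / 2) : ℝ)) +
        A ^ (1 / 6 : ℝ) * (P ^ (11 / 30 : ℝ) * N ^ (11 / 30 : ℝ)) +
        A ^ (-(1 / 24) : ℝ) * (P ^ (61 / 120 : ℝ) * N ^ (61 / 120 : ℝ)))) :=
        mul_le_mul_of_nonneg_left key hGM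
    _ = _ := by ring

end SD

open Pool.Agent.H69.SWL.SDA Pool.Agent.H69.SWL.SD SD in
/-- (SD) -/
theorem pf_SD (hDE : W_DE) (hPO : X_PO) (hGD : X_GD) (hSX : W_SX) (hPE : W_PE) : X_SD := by
  classical
  intro n p hn hp
  obtain ⟨CD, hCD, hD⟩ := exists_pcs hDE p hp (n + 5) (n + 4)
  obtain ⟨CG, hCG, hG⟩ := hGD n hn
  have hM0 : (0 : ℝ) ≤ (max 1 (CD * (1 + B0))) ^ n :=
    pow_nonneg (le_trans zero_le_one (le_max_left _ _)) _
  refine ⟨CG * (max 1 (CD * (1 + B0))) ^ n, mul_nonneg hCG hM0, ?_⟩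
  intro K _ _ hK l k κ M q y ω c ρ δ hl hk hM hω hq hc hkκ hκr hκ4 hρ hδM hδ hsm
  obtain ⟨e, k', Φ, hke, heκ, hδe, hFD, hper, hft⟩ := hq.cor κ hkκ hκr hκ4 ρ hρ δ hδM hδ
  obtain ⟨r, hr⟩ : ∃ r : Ideal (𝓞 K), r = k.radical := ⟨_, rfl⟩
  rw [← hr] at hFD hper hft hκr ⊢
  have he0 : e ≠ ⊥ := by
    rintro rfl
    exact hk (by rw [hke]; simp)
  have hk'0 : k' ≠ ⊥ := by
    rintro rfl
    exact hk (by rw [hke]; simp)
  have hkr : k ≤ r := by
    rw [hr]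
    exact Ideal.le_radical
  have hr0 : r ≠ ⊥ := by
    intro h
    rw [h] at hkr
    exact hk (le_bot_iff.1 hkr)
  have hkk' : k ≤ k' := by
    rw [hke]
    exact Ideal.mul_le_right (I := e) (J := k')
  have hRK : RK k' r := ⟨hk'0, hr0, by rw [hr]; exact Ideal.radical_idem k, by
    rw [hr]
    exact Ideal.radical_mono hkk'⟩
  have hrk0 : r ⊓ k' ≠ ⊥ := by
    intro h
    have h1 : k ≤ r ⊓ k' := le_inf hkr hkk'
    rw [h] at h1
    exact hk (le_bot_iff.1 h1)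
  have hj0 : l * (r ⊓ k') ≠ ⊥ := by
    intro h
    rcases Ideal.mul_eq_bot.1 h with h | h
    · exact hl h
    · exact hrk0 h
  have hNk : Nf K k = Nf K e * Nf K k' := by rw [hke, Nf_mul]
  have hNk' : 1 ≤ Nf K k' := Nf_one_le hk'0
  have hNk'0 : 0 < Nf K k' := Nf_pos hk'0
  have hNe0 : 0 < Nf K e := Nf_pos he0
  have hNl0 : 0 < Nf K l := Nf_pos hl
  have hDM := DD_pos M hM y
  refine ⟨Nf K k', hNk', ?_, ?_, ?_⟩
  · rw [hNk, mul_comm (Nf K e)]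
    exact mul_le_mul_of_nonneg_left (Nf_le heκ he0) hNk'0.le
  · have hle0 : ((l * e : Ideal (𝓞 K)) : FI K) * M ≠ 0 := by
      refine mul_ne_zero ?_ hM
      rw [Ne, FractionalIdeal.coeIdeal_eq_zero]
      intro h
      rcases Ideal.mul_eq_bot.1 h with h | h
      · exact hl h
      · exact he0 h
    have h1 := Pool.Agent.H20.SWL.pf_NB K _ y ω δ hle0 hω hδe hδ
    rw [DD_mul, Nf_mul] at h1
    have h2 : DD M y / (Nf K l * Nf K e) * ∏ v : InfinitePlace K, ‖wv v δ y ω‖ ^ v.mult =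
        (DD M y / Nf K l * ∏ v : InfinitePlace K, ‖wv v δ y ω‖ ^ v.mult) / Nf K e := by
      field_simp
    rw [h2, one_le_div hNe0] at h1
    rw [hNk]
    calc Nf K e * Nf K k' = Nf K k' * Nf K e := mul_comm _ _
      _ ≤ Nf K k' * (DD M y / Nf K l * ∏ v : InfinitePlace K, ‖wv v δ y ω‖ ^ v.mult) :=
          mul_le_mul_of_nonneg_left h1 hNk'0.le
      _ = _ := by ring
  obtain ⟨a, ha⟩ : ∃ a : InfinitePlace K → ℂ, a = fun v => wv v δ y ω := ⟨_, rfl⟩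
  have hav : ∀ v, wv v δ y ω = a v := fun v => by rw [ha]
  have ha0 : ∀ v, a v ≠ 0 := by
    intro v h
    have h1 := norm_wv v δ y hω
    rw [hav v, h, norm_zero] at h1
    have h2 : 0 < v δ * Real.exp (y v / 2) := mul_pos (v.pos_iff.2 hδ) (Real.exp_pos _)
    linarith
  have ha1 : ∀ v, ‖a v‖ ≤ 1 / 10000 := fun v => by
    rw [← hav v]
    exact hsm v
  have ha2 : ∀ v, Rl (rv v) (a v) := fun v => by
    rw [← hav v]
    exact Rl_wv v δ y hω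
  have hΛ : ∀ v, Rl (rv v) (2 * c v * a v) := fun v =>
    Rl_mul (Rl_mul (Rl_ofReal (rv v) 2) (hc v)) (ha2 v)
  simp only [hav]
  choose F hF using fun v => hD (rv v) (c v) (a v) (ha0 v) (ha1 v) (ha2 v) (hc v)
  obtain ⟨j, hj⟩ : ∃ j : Ideal (𝓞 K), j = l * (r ⊓ k') := ⟨_, rfl⟩
  rw [← hj] at hFD hper hft hj0
  have hjM0 : (j : FI K) * M ≠ 0 := by
    refine mul_ne_zero ?_ hM
    rwa [Ne, FractionalIdeal.coeIdeal_eq_zero]
  have hd : du K ((j : FI K) * M) ≠ 0 := (Pool.Agent.H63.HK.du K _ hjM0).1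
  have hω' := hω.conj
  -- the bounds of the Fourier transforms
  have hdec : ∃ C : ℝ, ∀ v ξ, Rl (rv v) ξ →
      ‖Pool.Agent.H31.SW.FF (rv v) (G2 (p (rv v)) (c v) (a v)) ξ‖ ≤
      C * (1 + ‖ξ‖) ^ (-(Module.finrank ℚ K + 1 : ℝ)) := by
    have h1 : ∀ v, ∃ C' : ℝ, 0 ≤ C' ∧ ∀ ξ, Rl (rv v) ξ →
        ‖Pool.Agent.H31.SW.FF (rv v) (G2 (p (rv v)) (c v) (a v)) ξ‖ ≤
        C' * (1 + ‖ξ‖) ^ (-(Module.finrank ℚ K + 1 : ℝ)) := fun v =>
      (hF v).decay hCD.le (by positivity) (by rw [hK]; push_cast; linarith)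
    choose C' hC'0 hC' using h1
    refine ⟨∑ v, C' v, fun v ξ hξ => (hC' v ξ hξ).trans ?_⟩
    exact mul_le_mul_of_nonneg_right
      (Finset.single_le_sum (fun v _ => hC'0 v) (Finset.mem_univ v)) (by positivity)
  obtain ⟨X, hX, -⟩ := Pool.Agent.H48.RC.pf_RX K j M hj0 hM
  obtain ⟨-, h1⟩ := hPO K j M X (fun x => ci K (l * r) M ρ x *
      (q (x + δ) * (starRingEnd ℂ) (q (x - δ)))) (fun v => G2 (p (rv v)) (c v) (a v)) hj0 hM hX
    hper (fun v => cont_G2 (hp.1 (rv v) 0).continuous (hp.2 (rv v)) (c v) (a v))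
    ⟨3, fun v w hw => G2_zero (hp.2 (rv v)) (c v) (ha1 v) hw⟩ hdec y ω hω
  rw [h1]
  obtain ⟨Ψ, hΨ⟩ : ∃ Ψ : K → ℂ, Ψ = fun x => if x ∈ du K ((j : FI K) * M) then Φ x else 0 :=
    ⟨_, rfl⟩
  have hΨ1 : ∀ x, ‖Ψ x‖ ≤ 1 := by
    intro x
    rw [hΨ]
    show ‖if x ∈ du K ((j : FI K) * M) then Φ x else 0‖ ≤ 1
    split_ifs with h
    · exact hFD.norm x h
    · simp
  have hΨ2 : ∀ x : {x : K // x ∈ du K ((j : FI K) * M)}, Φ x = Ψ x := by
    intro x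
    rw [hΨ]
    show Φ x = if (x : K) ∈ du K ((j : FI K) * M) then Φ x else 0
    rw [if_pos x.2]
  have h2 : ∀ x : {x : K // x ∈ du K ((j : FI K) * M)}, ft K X (fun x => ci K (l * r) M ρ x *
      (q (x + δ) * (starRingEnd ℂ) (q (x - δ)))) x * ∏ v, Pool.Agent.H31.SW.FF (rv v)
      (G2 (p (rv v)) (c v) (a v))
      (2 * Real.pi * dg (rv v) * wv v x (-y) (fun v => (starRingEnd ℂ) (ω v))) =
      ((Real.sqrt (Nf K k') : ℝ) : ℂ) *
        (Ψ x * pF (fun v z => ∑' j, F v j z) (yd y) (fun v => (starRingEnd ℂ) (ω v)) x) := by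
    intro x
    rw [hft X hX x.1 x.2, hΨ2 x, mul_assoc]
    unfold pF
    refine congrArg (fun z => ((Real.sqrt (Nf K k') : ℝ) : ℂ) * (Ψ x * z))
      (Finset.prod_congr rfl fun v _ => ?_)
    rw [wv_yd]
    exact ((hF v).sum _ (Rl_wv v _ _ hω')).tsum_eq.symm
  simp only [h2]
  rw [tsum_mul_left]
  obtain ⟨-, h3⟩ := hSX K (du K ((j : FI K) * M)) (yd y) (fun v => (starRingEnd ℂ) (ω v))
    (Option (ℤ × ℤ)) F
    (fun v => gc (2 * c v * a v)) (∑ v, ‖2 * c v * a v‖ + 2)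
    (fun v j => cb CD ‖2 * c v * a v‖ (n + 4) (dg (rv v)) j) Ψ hd hω' hΨ1
    (fun v j z => (hF v).norm_le hCD.le j z)
    (fun v j z hz => (hF v).eq_zero (by
      have := Finset.single_le_sum (f := fun v => ‖2 * c v * a v‖)
        (fun v _ => norm_nonneg _) (Finset.mem_univ v)
      linarith) j hz)
    (fun v => by
      have h4 := (sum_pieces hCD.le (norm_nonneg (2 * c v * a v)) (k := n + 4) (e := dg (rv v))
        (by omega) (by unfold dg; split_ifs <;> norm_num) (β := 0) le_rfl).1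
      refine h4.congr fun j => ?_
      rw [zero_mul, Real.rpow_zero, mul_one])
  rw [h3]
  have hE0 := (DD_pos (du K ((j : FI K) * M)) hd (yd y)).le
  obtain ⟨E, hE⟩ : ∃ E : ℝ, E = DD (du K ((j : FI K) * M)) (yd y) / Nf K k' := ⟨_, rfl⟩
  have hEn : 0 ≤ E := by
    rw [hE]
    exact div_nonneg hE0 hNk'0.le
  have hNr1 : 1 ≤ Nf K r := Nf_one_le hr0
  obtain ⟨s1, s2⟩ := sum_bound hPE hK hCD.le (k := n + 4) (by omega)
    (fun v => ‖2 * c v * a v‖) (fun v => norm_nonneg _)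
    (A := CG * Nf K r ^ 2 * Real.sqrt (dK K)) (E₁ := E ^ (5 / 6 : ℝ) * Nf K k' ^ (13 / 15 : ℝ))
    (E₂ := E ^ (25 / 24 : ℝ) * Nf K k' ^ (121 / 120 : ℝ))
    (mul_nonneg (mul_nonneg hCG (sq_nonneg _)) (Real.sqrt_nonneg _))
    (mul_nonneg (Real.rpow_nonneg hEn _) (Real.rpow_nonneg hNk'0.le _))
    (mul_nonneg (Real.rpow_nonneg hEn _) (Real.rpow_nonneg hNk'0.le _))
  have hpc := piece2 (n := n) (k := n + 4) hCD (du K ((j : FI K) * M)) (yd y)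
    (fun v => (starRingEnd ℂ) (ω v)) Ψ
    (fun P => CG * Nf K r ^ 2 * Real.sqrt (dK K) *
      (1 + E ^ (5 / 6 : ℝ) * Nf K k' ^ (13 / 15 : ℝ) * P ^ (13 / 15 : ℝ) +
        E ^ (25 / 24 : ℝ) * Nf K k' ^ (121 / 120 : ℝ) * P ^ (121 / 120 : ℝ)))
    (fun P hP => by positivity)
    (fun t Λ a g F' hdat => by
      have h4 := hG K hK (du K ((j : FI K) * M)) (yd y) (fun v => (starRingEnd ℂ) (ω v)) t Λ a g
        F' k' r Φ hd hω' hRK hdat hFD
      simp only [hΨ2] at h4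
      refine h4.trans (le_of_eq ?_)
      have hPn : 0 ≤ PP (fun v => Mt (t v) (Λ v)) := PP_nonneg _ fun v => by
        unfold Mt
        split_ifs
        · exact norm_nonneg _
        · exact zero_le_one
      rw [← hE, Real.mul_rpow hPn hNk'0.le, Real.mul_rpow hPn hNk'0.le]
      ring)
    (fun v => 2 * c v * a v) a hΛ ha0 ha1 ha2 _ F hF
  have h5 := tsum_of_norm_bounded s1.hasSum hpc
  have h6 := h5.trans s2
  have hd1 := dK_one_le (K := K)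
  have hsq : 0 < Real.sqrt (dK K) := Real.sqrt_pos.2 (by linarith)
  have hP0 : 0 ≤ PP (fun v => max 1 ‖2 * c v * a v‖) := PP_nonneg _ fun v =>
    le_trans zero_le_one (le_max_left _ _)
  obtain ⟨A, hA⟩ : ∃ A : ℝ, A = DD M y / Nf K l := ⟨_, rfl⟩
  have hA0 : 0 < A := by
    rw [hA]
    exact div_pos hDM hNl0
  have hNrk : Nf K (r ⊓ k') ≤ Nf K r * Nf K k' := by
    rw [← Nf_mul]
    refine Nf_le Ideal.mul_le_inf ?_
    intro h
    rcases Ideal.mul_eq_bot.1 h with h | h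
    · exact hr0 h
    · exact hk'0 h
  have hNrk2 : Nf K k' ≤ Nf K (r ⊓ k') := Nf_le inf_le_right hrk0
  have hNrk0 : 0 < Nf K (r ⊓ k') := Nf_pos hrk0
  have hdual := DD_dual ((j : FI K) * M) hjM0 y
  have hEle : E ≤ dK K * Nf K r / A := by
    rw [hE]
    have h7 : DD ((j : FI K) * M) y = A / Nf K (r ⊓ k') := by
      rw [DD_mul, hj, Nf_mul, hA, div_div]
    rw [h7] at hdual
    calc DD (du K ((j : FI K) * M)) (yd y) / Nf K k'
        ≤ dK K / (A / Nf K (r ⊓ k')) / Nf K k' :=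
          div_le_div_of_nonneg_right hdual hNk'0.le
      _ = dK K * Nf K (r ⊓ k') / (A * Nf K k') := by
          field_simp
      _ ≤ dK K * (Nf K r * Nf K k') / (A * Nf K k') := by
          refine div_le_div_of_nonneg_right ?_ (mul_pos hA0 hNk'0).le
          exact mul_le_mul_of_nonneg_left hNrk (by linarith)
      _ = dK K * Nf K r / A := by
          field_simp
  have hfin := numbers (G := CG) (M := (max 1 (CD * (1 + B0))) ^ n) hA0 hNk'0 hP0 hd1 hNr1 hCG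
    hM0 hEn hEle
  rw [norm_mul, norm_mul, Complex.norm_real, Complex.norm_real, Real.norm_eq_abs,
    Real.norm_eq_abs, abs_of_nonneg (Real.sqrt_nonneg _),
    abs_of_nonneg (div_nonneg hDM.le (mul_nonneg (Nf_pos hj0).le hsq.le))]
  have hpre : DD M y / (Nf K j * Real.sqrt (dK K)) * Real.sqrt (Nf K k') *
      Real.sqrt (dK K) ≤ A * Nf K k' ^ (-(1 / 2) : ℝ) := by
    have h8 : DD M y / (Nf K j * Real.sqrt (dK K)) * Real.sqrt (Nf K k') *
      Real.sqrt (dK K) = A * (Real.sqrt (Nf K k') / Nf K (r ⊓ k')) := by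
      rw [hj, Nf_mul, hA]
      field_simp
    rw [h8]
    refine mul_le_mul_of_nonneg_left ?_ hA0.le
    calc Real.sqrt (Nf K k') / Nf K (r ⊓ k') ≤ Real.sqrt (Nf K k') / Nf K k' :=
          div_le_div_of_nonneg_left (Real.sqrt_nonneg _) hNk'0 hNrk2
      _ = Nf K k' ^ (-(1 / 2) : ℝ) := by
          rw [Real.sqrt_eq_rpow, div_eq_iff hNk'0.ne', ← Real.rpow_add_one hNk'0.ne']
          norm_num
  obtain ⟨Pb, hPb⟩ : ∃ Pb : ℝ, Pb = PP (fun v => max 1 ‖2 * c v * a v‖) := ⟨_, rfl⟩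
  rw [← hPb] at h6 hfin hP0 ⊢
  have hbr : 0 ≤ CG * Nf K r ^ 2 * ((max 1 (CD * (1 + B0))) ^ n * (Pb ^ (-(1 / 2) : ℝ) +
      E ^ (5 / 6 : ℝ) * Nf K k' ^ (13 / 15 : ℝ) * Pb ^ (11 / 30 : ℝ) +
      E ^ (25 / 24 : ℝ) * Nf K k' ^ (121 / 120 : ℝ) * Pb ^ (61 / 120 : ℝ))) := by
    have := Real.rpow_nonneg hP0 (-(1 / 2) : ℝ)
    have := Real.rpow_nonneg hP0 (11 / 30 : ℝ)
    have := Real.rpow_nonneg hP0 (61 / 120 : ℝ)
    have := Real.rpow_nonneg hEn (5 / 6 : ℝ)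
    have := Real.rpow_nonneg hEn (25 / 24 : ℝ)
    have := Real.rpow_nonneg hNk'0.le (13 / 15 : ℝ)
    have := Real.rpow_nonneg hNk'0.le (121 / 120 : ℝ)
    positivity
  rw [← hA]
  calc _ ≤ DD M y / (Nf K j * Real.sqrt (dK K)) * (Real.sqrt (Nf K k') *
        (CG * Nf K r ^ 2 * Real.sqrt (dK K) *
        ((max 1 (CD * (1 + B0))) ^ n * (Pb ^ (-(1 / 2) : ℝ) +
          E ^ (5 / 6 : ℝ) * Nf K k' ^ (13 / 15 : ℝ) * Pb ^ (11 / 30 : ℝ) +
          E ^ (25 / 24 : ℝ) * Nf K k' ^ (121 / 120 : ℝ) * Pb ^ (61 / 120 : ℝ))))) :=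
        mul_le_mul_of_nonneg_left (mul_le_mul_of_nonneg_left h6 (Real.sqrt_nonneg _))
          (div_nonneg hDM.le (mul_nonneg (Nf_pos hj0).le hsq.le))
    _ = (DD M y / (Nf K j * Real.sqrt (dK K)) * Real.sqrt (Nf K k') * Real.sqrt (dK K)) *
        (CG * Nf K r ^ 2 * ((max 1 (CD * (1 + B0))) ^ n * (Pb ^ (-(1 / 2) : ℝ) +
          E ^ (5 / 6 : ℝ) * Nf K k' ^ (13 / 15 : ℝ) * Pb ^ (11 / 30 : ℝ) +
          E ^ (25 / 24 : ℝ) * Nf K k' ^ (121 / 120 : ℝ) * Pb ^ (61 / 120 : ℝ)))) := by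
        ring
    _ ≤ A * Nf K k' ^ (-(1 / 2) : ℝ) *
        (CG * Nf K r ^ 2 * ((max 1 (CD * (1 + B0))) ^ n * (Pb ^ (-(1 / 2) : ℝ) +
          E ^ (5 / 6 : ℝ) * Nf K k' ^ (13 / 15 : ℝ) * Pb ^ (11 / 30 : ℝ) +
          E ^ (25 / 24 : ℝ) * Nf K k' ^ (121 / 120 : ℝ) * Pb ^ (61 / 120 : ℝ)))) :=
        mul_le_mul_of_nonneg_right hpre hbr
    _ ≤ _ := hfin

end Pool.Agent.H69.SWX
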